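import Pool.Agent.J6H76.TB.Low

/-! The general lower bound. -/

set_option autoImplicit false

namespace J6H76.TB

open Matrix

/-- The set `M` of `k × m` matrices meets all the conditions `B * A = C`. -/
def Cov {F : Type} [Field F] {k m : ℕ} (r : ℕ) (M : Finset (Matrix (Fin k) (Fin m) F)) : Prop :=
  ∀ B : Matrix (Fin r) (Fin k) F, B.rank = r → ∀ C : Matrix (Fin r) (Fin m) F, ∃ A ∈ M, B * A = C

/-- The first `s` of `k` indices. -/
def up {k s : ℕ} (hs : s < k) (i : Fin s) : Fin k := ⟨i.1, by omega⟩

theorem up_inj {k s : ℕ} (hs : s < k) : Function.Injective (up hs) := by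
  intro i j hij
  have h : (up hs i).1 = (up hs j).1 := by rw [hij]
  exact Fin.ext h

/-- Extension by zero. -/
def ext {F : Type} [Field F] {k s : ℕ} (b : {i : Fin k // s ≤ i.1} → F) : Fin k → F :=
  fun i => if h : s ≤ i.1 then b ⟨i, h⟩ else 0

/-- The matrix with the unit vectors and `b`. -/
def bm {F : Type} [Field F] {k s : ℕ} (hs : s < k) (b : {i : Fin k // s ≤ i.1} → F) :
    Matrix (Fin (s + 1)) (Fin k) F :=
  Matrix.of (Fin.snoc (α := fun _ => Fin k → F) (fun i => Pi.single (up hs i) 1) (ext b))

theorem bm_rank {F : Type} [Field F] {k s : ℕ} (hs : s < k) (b : {i : Fin k // s ≤ i.1} → F)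
    (hb : b ≠ 0) : (bm hs b).rank = s + 1 := by
  classical
  have hv : LinearIndependent F (fun i : Fin s => (Pi.single (up hs i) 1 : Fin k → F)) := by
    have h2 := (Pi.basisFun F (Fin k)).linearIndependent.comp (up hs) (up_inj hs)
    convert h2 using 1
    funext i
    simp
  have hx : ext b ∉ Submodule.span F
      (Set.range (fun i : Fin s => (Pi.single (up hs i) 1 : Fin k → F))) := by
    intro hx
    obtain ⟨i, hi⟩ := Function.ne_iff.1 hb
    have h3 : Submodule.span F (Set.range (fun i : Fin s => (Pi.single (up hs i) 1 : Fin k → F))) ≤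
        LinearMap.ker (LinearMap.proj i.1 : (Fin k → F) →ₗ[F] F) := by
      rw [Submodule.span_le]
      rintro _ ⟨j, rfl⟩
      simp only [SetLike.mem_coe, LinearMap.mem_ker, LinearMap.proj_apply]
      apply Pi.single_eq_of_ne
      intro h
      have h4 := congrArg Fin.val h
      have h5 := i.2
      have h6 : (up hs j).1 = j.1 := rfl
      have h7 := j.2
      omega
    have h8 := h3 hx
    rw [LinearMap.mem_ker, LinearMap.proj_apply] at h8
    apply hi
    have h9 : ext b i.1 = b i := by
      unfold ext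
      rw [dif_pos i.2]
    rw [h9] at h8
    rw [h8, Pi.zero_apply]
  have h4 : LinearIndependent F (Fin.snoc (α := fun _ => Fin k → F)
      (fun i : Fin s => (Pi.single (up hs i) 1 : Fin k → F)) (ext b)) :=
    linearIndependent_finSnoc.2 ⟨hv, hx⟩
  have h6 : (bm hs b).row = Fin.snoc (α := fun _ => Fin k → F)
      (fun i : Fin s => (Pi.single (up hs i) 1 : Fin k → F)) (ext b) := by
    unfold bm
    rfl
  rw [← h6] at h4
  have h5 := h4.rank_matrix
  rwa [Fintype.card_fin] at h5

theorem bm_up {F : Type} [Field F] {k m s : ℕ} (hs : s < k) (b : {i : Fin k // s ≤ i.1} → F)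
    (A : Matrix (Fin k) (Fin m) F) (i : Fin s) (l : Fin m) :
    (bm hs b * A) i.castSucc l = A (up hs i) l := by
  classical
  rw [Matrix.mul_apply]
  have h : ∀ j, bm hs b i.castSucc j = (Pi.single (up hs i) 1 : Fin k → F) j := by
    intro j
    unfold bm
    rw [Matrix.of_apply, Fin.snoc_castSucc]
  rw [Finset.sum_congr rfl (fun j _ => by rw [h j]), Finset.sum_eq_single (up hs i)]
  · rw [Pi.single_eq_same, one_mul]
  · intro j _ hj
    rw [Pi.single_eq_of_ne hj, zero_mul]
  · intro h
    exact absurd (Finset.mem_univ _) h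

theorem bm_last {F : Type} [Field F] {k m s : ℕ} (hs : s < k) (b : {i : Fin k // s ≤ i.1} → F)
    (A : Matrix (Fin k) (Fin m) F) (l : Fin m) :
    (bm hs b * A) (Fin.last s) l = ∑ i, b i * A i.1 l := by
  classical
  rw [Matrix.mul_apply]
  have h : ∀ j, bm hs b (Fin.last s) j = ext b j := by
    intro j
    unfold bm
    rw [Matrix.of_apply, Fin.snoc_last]
  have h7 : ∑ i : Fin k, ext b i * A i l = ∑ i ∈ Finset.univ.filter (fun i : Fin k => s ≤ i.1),
      ext b i * A i l := by
    rw [Finset.sum_filter]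
    refine Finset.sum_congr rfl fun i _ => ?_
    split_ifs with hi
    · rfl
    · unfold ext
      rw [dif_neg hi, zero_mul]
  rw [Finset.sum_congr rfl (fun j _ => by rw [h j]), h7,
    Finset.sum_subtype (Finset.univ.filter (fun i : Fin k => s ≤ i.1)) (p := fun i : Fin k => s ≤ i.1)
    (by intro i; simp) (fun i => ext b i * A i l)]
  refine Finset.sum_congr rfl fun i _ => ?_
  unfold ext
  rw [dif_pos i.2]

theorem card_sig {k s : ℕ} : Fintype.card {i : Fin k // s ≤ i.1} = k - s := by
  rcases Nat.lt_or_ge k s with h | h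
  · have h0 : IsEmpty {i : Fin k // s ≤ i.1} := ⟨fun i => by have := i.1.2; have := i.2; omega⟩
    rw [Fintype.card_eq_zero]
    omega
  · have e : {i : Fin k // s ≤ i.1} ≃ Fin (k - s) :=
      { toFun := fun i => ⟨i.1.1 - s, by have := i.1.2; have := i.2; omega⟩
        invFun := fun i => ⟨⟨i.1 + s, by omega⟩, by simp⟩
        left_inv := fun i => by
          apply Subtype.ext
          apply Fin.ext
          have := i.2
          show i.1.1 - s + s = i.1.1
          omega
        right_inv := fun i => by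
          apply Fin.ext
          show i.1 + s - s = i.1
          omega }
    rw [Fintype.card_congr e, Fintype.card_fin]

theorem key {F : Type} [Field F] [Fintype F] [DecidableEq F] {k m s : ℕ} (hm : 1 ≤ m) (hs : s < k)
    (M : Finset (Matrix (Fin k) (Fin m) F)) (hM : Cov (s + 1) M) (C' : Matrix (Fin s) (Fin m) F) :
    (Fintype.card F - 1) * (k - s) + Fintype.card F ^ (m - 1) ≤
      (M.filter (fun A => A.submatrix (up hs) id = C')).card := by
  classical
  have hne : Nonempty {i : Fin k // s ≤ i.1} := ⟨⟨⟨s, hs⟩, le_refl s⟩⟩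
  have h1 := one_row (F := F) (σ := {i : Fin k // s ≤ i.1}) hm
    (M.filter (fun A => A.submatrix (up hs) id = C')) (fun A i l => A i.1 l) ?_
  · rwa [card_sig] at h1
  intro b hb c
  obtain ⟨A, hA, hBA⟩ := hM (bm hs b) (bm_rank hs b hb)
    (Matrix.of (Fin.snoc (α := fun _ => Fin m → F) (fun i => C' i) c))
  refine ⟨A, ?_, ?_⟩
  · rw [Finset.mem_filter]
    refine ⟨hA, ?_⟩
    ext i l
    rw [Matrix.submatrix_apply, id, ← bm_up hs b A i l, hBA, Matrix.of_apply, Fin.snoc_castSucc]
  · intro l
    rw [← bm_last hs b A l, hBA, Matrix.of_apply, Fin.snoc_last]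

theorem lower {F : Type} [Field F] [Fintype F] {k m s : ℕ} (hm : 1 ≤ m) (hs : s < k)
    (M : Finset (Matrix (Fin k) (Fin m) F)) (hM : Cov (s + 1) M) :
    Fintype.card F ^ (s * m) * ((Fintype.card F - 1) * (k - s) + Fintype.card F ^ (m - 1)) ≤
      M.card := by
  classical
  have hsum : M.card = ∑ C' : Matrix (Fin s) (Fin m) F,
      (M.filter (fun A => A.submatrix (up hs) id = C')).card :=
    Finset.card_eq_sum_card_fiberwise (fun x _ => Finset.mem_coe.2 (Finset.mem_univ _))
  rw [hsum]
  have hcard : Fintype.card (Matrix (Fin s) (Fin m) F) = Fintype.card F ^ (s * m) := by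
    have h1 : Fintype.card (Matrix (Fin s) (Fin m) F) = Fintype.card (Fin s → Fin m → F) :=
      Fintype.card_congr (Equiv.refl _)
    rw [h1, Fintype.card_fun, Fintype.card_fun, Fintype.card_fin, Fintype.card_fin, ← pow_mul,
      mul_comm]
  calc Fintype.card F ^ (s * m) * ((Fintype.card F - 1) * (k - s) + Fintype.card F ^ (m - 1))
      = ∑ _C' : Matrix (Fin s) (Fin m) F,
        ((Fintype.card F - 1) * (k - s) + Fintype.card F ^ (m - 1)) := by
        rw [Finset.sum_const, Finset.card_univ, hcard, smul_eq_mul]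
    _ ≤ _ := Finset.sum_le_sum fun C' _ => key hm hs M hM C'

end J6H76.TB
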