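import Pool.Agent.J6H76.TB.Sub

/-! The limit for one row. -/

set_option autoImplicit false

namespace J6H76.TB

open Matrix Filter Topology

/-- The least size. -/
noncomputable def T0 (F : Type) [Field F] (k m r : ℕ) : ℕ :=
  sInf {N : ℕ | ∃ M : Finset (Matrix (Fin k) (Fin m) F), Cov r M ∧ M.card = N}

theorem T0_spec (F : Type) [Field F] [Fintype F] (k m r : ℕ) :
    ∃ M : Finset (Matrix (Fin k) (Fin m) F), Cov r M ∧ M.card = T0 F k m r := by
  obtain ⟨M0, hM0, -⟩ := upper (F := F) k m r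
  exact Nat.sInf_mem (s := {N : ℕ | ∃ M : Finset (Matrix (Fin k) (Fin m) F), Cov r M ∧ M.card = N})
    ⟨_, M0, hM0, rfl⟩

theorem T0_le {F : Type} [Field F] {k m r : ℕ} (M : Finset (Matrix (Fin k) (Fin m) F))
    (hM : Cov r M) : T0 F k m r ≤ M.card :=
  Nat.sInf_le ⟨M, hM, rfl⟩

theorem T0_add (F : Type) [Field F] [Fintype F] (k₁ k₂ m : ℕ) (h1 : 1 ≤ k₁) (h2 : 1 ≤ k₂) :
    T0 F (k₁ + k₂) m 1 + 1 ≤ T0 F k₁ m 1 + T0 F k₂ m 1 := by
  obtain ⟨M₁, hM₁, hc1⟩ := T0_spec F k₁ m 1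
  obtain ⟨M₂, hM₂, hc2⟩ := T0_spec F k₂ m 1
  obtain ⟨M, hM, hc⟩ := cov_add h1 h2 M₁ hM₁ M₂ hM₂
  have h := T0_le M hM
  omega

theorem T0_low (F : Type) [Field F] [Fintype F] (k m : ℕ) (hk : 1 ≤ k) (hm : 1 ≤ m) :
    (Fintype.card F - 1) * k + Fintype.card F ^ (m - 1) ≤ T0 F k m 1 := by
  obtain ⟨M, hM, hc⟩ := T0_spec F k m 1
  have h := lower (s := 0) hm (by omega : 0 < k) M hM
  rw [zero_mul, pow_zero, one_mul, Nat.sub_zero, hc] at h
  exact h

theorem T0_up (F : Type) [Field F] [Fintype F] (k m : ℕ) (hm : 1 ≤ m) :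
    T0 F k m 1 ≤ (k + m - 1) / m * (Fintype.card F ^ m - 1) + 1 := by
  obtain ⟨M, hM, hc⟩ := one_upper F k m hm
  exact (T0_le M hM).trans hc

/-- The function to which the lemma of Fekete is applied. -/
noncomputable def u (F : Type) [Field F] (m : ℕ) (k : ℕ) : ℝ :=
  if k = 0 then 0 else (T0 F k m 1 : ℝ) - 1

theorem u_sub (F : Type) [Field F] [Fintype F] (m : ℕ) : Subadditive (u F m) := by
  intro a b
  unfold u
  by_cases ha : a = 0
  · subst ha
    simp
  by_cases hb : b = 0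
  · subst hb
    simp
  rw [if_neg ha, if_neg hb, if_neg (by omega)]
  have h := T0_add F a b m (by omega) (by omega)
  have h2 : (T0 F (a + b) m 1 : ℝ) + 1 ≤ (T0 F a m 1 : ℝ) + (T0 F b m 1 : ℝ) := by exact_mod_cast h
  linarith

theorem lim_exists (F : Type) [Field F] [Fintype F] (m : ℕ) (hm : 1 ≤ m) :
    ∃ c : ℝ, (Fintype.card F : ℝ) - 1 ≤ c ∧ c ≤ ((Fintype.card F : ℝ) ^ m - 1) / m ∧
      Tendsto (fun k : ℕ => (T0 F k m 1 : ℝ) / k) atTop (𝓝 c) ∧
      ∀ k : ℕ, 1 ≤ k → c * k + 1 ≤ T0 F k m 1 := by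
  have hsub := u_sub F m
  have hq : 1 < Fintype.card F := Fintype.one_lt_card
  have hq0 : (1 : ℝ) ≤ (Fintype.card F : ℝ) := by exact_mod_cast hq.le
  have hpos : ∀ k, 0 ≤ u F m k := by
    intro k
    unfold u
    split_ifs with hk
    · exact le_rfl
    · have h := T0_low F k m (by omega) hm
      have h2 : 1 ≤ Fintype.card F ^ (m - 1) := Nat.one_le_pow _ _ (by omega)
      have h3 : 1 ≤ T0 F k m 1 := by omega
      have h4 : (1 : ℝ) ≤ (T0 F k m 1 : ℝ) := by exact_mod_cast h3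
      linarith
  have hbdd : BddBelow (Set.range fun n : ℕ => u F m n / n) := by
    refine ⟨0, ?_⟩
    rintro _ ⟨n, rfl⟩
    exact div_nonneg (hpos n) (Nat.cast_nonneg n)
  have hlim := hsub.tendsto_lim hbdd
  have h1k : Tendsto (fun k : ℕ => (1 : ℝ) / k) atTop (𝓝 0) := tendsto_one_div_atTop_nhds_zero_nat
  have hT : Tendsto (fun k : ℕ => (T0 F k m 1 : ℝ) / k) atTop (𝓝 hsub.lim) := by
    have h2 := hlim.add h1k
    rw [add_zero] at h2
    refine h2.congr' ?_
    filter_upwards [eventually_gt_atTop 0] with k hk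
    unfold u
    rw [if_neg (by omega)]
    ring
  refine ⟨hsub.lim, ?_, ?_, hT, ?_⟩
  · refine ge_of_tendsto hT ?_
    filter_upwards [eventually_gt_atTop 0] with k hk
    have h := T0_low F k m (by omega) hm
    have hk0 : (0 : ℝ) < (k : ℝ) := by exact_mod_cast hk
    rw [le_div_iff₀ hk0]
    have h3 : (Fintype.card F - 1) * k ≤ T0 F k m 1 := by omega
    have h4 : (((Fintype.card F - 1 : ℕ) : ℝ)) * (k : ℝ) ≤ (T0 F k m 1 : ℝ) := by exact_mod_cast h3
    rwa [Nat.cast_sub (by omega), Nat.cast_one] at h4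
  · have hm0 : (0 : ℝ) < (m : ℝ) := by exact_mod_cast hm
    set Q : ℝ := (Fintype.card F : ℝ) ^ m with hQ
    have hQ1 : 1 ≤ Q := one_le_pow₀ hq0
    have hR : Tendsto (fun k : ℕ => (Q - 1) / m + (((m : ℝ) - 1) / m * (Q - 1) + 1) * (1 / (k : ℝ)))
        atTop (𝓝 ((Q - 1) / m)) := by
      have h5 := (h1k.const_mul ((((m : ℝ) - 1) / m * (Q - 1) + 1))).const_add ((Q - 1) / m)
      rwa [mul_zero, add_zero] at h5
    refine le_of_tendsto_of_tendsto hT hR ?_
    filter_upwards [eventually_gt_atTop 0] with k hk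
    have hk0 : (0 : ℝ) < (k : ℝ) := by exact_mod_cast hk
    have h := T0_up F k m hm
    have h6 : (T0 F k m 1 : ℝ) ≤ (((k + m - 1) / m : ℕ) : ℝ) * (Q - 1) + 1 := by
      have h7 : ((Fintype.card F ^ m - 1 : ℕ) : ℝ) = Q - 1 := by
        rw [Nat.cast_sub (Nat.one_le_pow _ _ (by omega))]
        push_cast
        rfl
      rw [← h7]
      exact_mod_cast h
    have h8 : (((k + m - 1) / m : ℕ) : ℝ) ≤ ((k : ℝ) + m - 1) / m := by
      have h9 := @Nat.cast_div_le ℝ _ _ _ (k + m - 1) m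
      rw [Nat.cast_sub (by omega)] at h9
      push_cast at h9
      exact h9
    rw [div_le_iff₀ hk0]
    have h10 : ((Q - 1) / m + (((m : ℝ) - 1) / m * (Q - 1) + 1) * (1 / (k : ℝ))) * k =
        ((k : ℝ) + m - 1) / m * (Q - 1) + 1 := by
      field_simp
      ring
    rw [h10]
    refine h6.trans ?_
    have h11 := mul_le_mul_of_nonneg_right h8 (by linarith : (0 : ℝ) ≤ Q - 1)
    linarith
  · intro k hk
    have h12 := hsub.lim_le_div hbdd (n := k) (by omega)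
    have hk0 : (0 : ℝ) < (k : ℝ) := by exact_mod_cast hk
    rw [le_div_iff₀ hk0] at h12
    have h13 : u F m k = (T0 F k m 1 : ℝ) - 1 := by
      unfold u
      rw [if_neg (by omega)]
    rw [h13] at h12
    linarith

end J6H76.TB
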