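import Mathlib

/-! Lower bounds: sets of matrices which cover. -/

set_option autoImplicit false

namespace J6H76.TB

open MvPolynomial

/-- (Jamison, Brouwer and Schrijver.) -/
theorem jamison {F σ α : Type} [Field F] [Fintype F] [Fintype σ] [DecidableEq σ] [Nonempty σ]
    [DecidableEq α] (S : Finset α) (x : α → σ → F)
    (h : ∀ b : σ → F, b ≠ 0 → ∀ c : F, ∃ a ∈ S, ∑ i, b i * x a i = c) :
    (Fintype.card F - 1) * Fintype.card σ + 1 ≤ S.card := by
  classical
  obtain ⟨a0, ha0, -⟩ := h (fun _ => 1) (by
    intro h0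
    obtain ⟨i⟩ := (inferInstance : Nonempty σ)
    exact one_ne_zero (congrFun h0 i)) 0
  set P : MvPolynomial σ F := ∏ a ∈ S.erase a0, (1 - ∑ i, C (x a i - x a0 i) * X i) with hP
  have hev : ∀ b : σ → F, eval b P = if b = 0 then 1 else 0 := by
    intro b
    rw [hP, map_prod]
    split_ifs with hb
    · apply Finset.prod_eq_one
      intro a _
      rw [hb]
      simp
    · obtain ⟨a, ha, hab⟩ := h b hb (∑ i, b i * x a0 i + 1)
      apply Finset.prod_eq_zero (i := a)
      · rw [Finset.mem_erase]
        refine ⟨?_, ha⟩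
        rintro rfl
        simp at hab
      · simp only [map_sub, map_one, map_sum, map_mul, eval_C, eval_X]
        have h1 : ∑ i, (x a i - x a0 i) * b i = ∑ i, b i * x a i - ∑ i, b i * x a0 i := by
          rw [← Finset.sum_sub_distrib]
          refine Finset.sum_congr rfl fun i _ => ?_
          ring
        rw [h1, hab]
        ring
  have hdeg : P.totalDegree ≤ S.card - 1 := by
    rw [hP]
    refine (totalDegree_finsetProd _ _).trans ?_
    rw [← Finset.card_erase_of_mem ha0]
    refine (Finset.sum_le_card_nsmul _ _ 1 ?_).trans (by simp)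
    intro a _
    refine (totalDegree_sub _ _).trans ?_
    rw [totalDegree_one]
    refine max_le (by norm_num) ?_
    refine (totalDegree_finsetSum _ _).trans ?_
    refine Finset.sup_le fun i _ => ?_
    refine (totalDegree_mul _ _).trans ?_
    rw [totalDegree_C, totalDegree_X, zero_add]
  by_contra hlt
  have hpos : 0 < S.card := Finset.card_pos.2 ⟨a0, ha0⟩
  have h2 := MvPolynomial.sum_eval_eq_zero P (by omega)
  rw [Finset.sum_congr rfl (fun b _ => hev b)] at h2
  simp at h2

/-- Fibres of a surjective homomorphism have the same size. -/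
theorem fib {G H : Type} [AddCommGroup G] [AddCommGroup H] [Fintype G] [Fintype H] [DecidableEq H]
    (f : G →+ H) (hf : Function.Surjective f) (y : H) :
    (Finset.univ.filter (fun g => f g = y)).card * Fintype.card H = Fintype.card G := by
  have h1 : ∀ z : H, (Finset.univ.filter (fun g => f g = z)).card =
      (Finset.univ.filter (fun g => f g = y)).card := by
    intro z
    exact AddMonoidHom.card_fiber_eq_of_mem_range f (hf z) (hf y)
  have h2 : Fintype.card G = ∑ z : H, (Finset.univ.filter (fun g => f g = z)).card := by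
    rw [← Finset.card_univ]
    exact Finset.card_eq_sum_card_fiberwise (fun x _ => Finset.mem_coe.2 (Finset.mem_univ _))
  rw [h2, Finset.sum_congr rfl (fun z _ => h1 z), Finset.sum_const, Finset.card_univ, smul_eq_mul,
    mul_comm]

/-- The case of one row. -/
theorem one_row {F σ : Type} [Field F] [Fintype F] [Fintype σ] [DecidableEq σ] [Nonempty σ]
    {α : Type} [DecidableEq α] {m : ℕ} (hm : 1 ≤ m) (S : Finset α) (x : α → σ → Fin m → F)
    (h : ∀ b : σ → F, b ≠ 0 → ∀ c : Fin m → F, ∃ a ∈ S, ∀ l, ∑ i, b i * x a i l = c l) :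
    (Fintype.card F - 1) * Fintype.card σ + Fintype.card F ^ (m - 1) ≤ S.card := by
  classical
  set l0 : Fin m := ⟨0, hm⟩ with hl0
  have hq : 0 < Fintype.card F := Fintype.card_pos
  have hcnt : ∀ v : F, (Finset.univ.filter (fun c : Fin m → F => c l0 = v)).card =
      Fintype.card F ^ (m - 1) := by
    intro v
    have h1 := fib (Pi.evalAddMonoidHom (fun _ : Fin m => F) l0)
      (fun y => ⟨fun _ => y, rfl⟩) v
    have h2 : Fintype.card (Fin m → F) = Fintype.card F ^ (m - 1) * Fintype.card F := by
      rw [Fintype.card_fun, Fintype.card_fin, ← pow_succ]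
      congr 1
      omega
    rw [h2] at h1
    exact Nat.eq_of_mul_eq_mul_right hq h1
  have hfil : ∀ b : σ → F, b ≠ 0 → ∀ v : F, Fintype.card F ^ (m - 1) ≤
      (S.filter (fun a => ∑ i, b i * x a i l0 = v)).card := by
    intro b hb v
    rw [← hcnt v]
    refine Finset.card_le_card_of_surjOn (fun a => fun l => ∑ i, b i * x a i l) ?_
    intro c hc
    rw [Finset.mem_coe, Finset.mem_filter] at hc
    obtain ⟨a, ha, hac⟩ := h b hb c
    refine ⟨a, ?_, funext hac⟩
    rw [Finset.mem_coe, Finset.mem_filter]
    exact ⟨ha, by rw [hac l0]; exact hc.2⟩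
  have hb1 : (fun _ : σ => (1 : F)) ≠ 0 := by
    intro h0
    obtain ⟨i⟩ := (inferInstance : Nonempty σ)
    exact one_ne_zero (congrFun h0 i)
  have hS : Fintype.card F ^ (m - 1) ≤ S.card :=
    (hfil _ hb1 0).trans (Finset.card_filter_le _ _)
  have hqp : 0 < Fintype.card F ^ (m - 1) := pow_pos hq _
  obtain ⟨D, hDS, hD⟩ := Finset.exists_subset_card_eq (s := S) (n := Fintype.card F ^ (m - 1) - 1)
    (by omega)
  have h5 := jamison (S \ D) (fun a i => x a i l0) (by
    intro b hb v
    have h6 := hfil b hb v
    have h7 : ¬ (S.filter (fun a => ∑ i, b i * x a i l0 = v)) ⊆ D := by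
      intro hsub
      have := Finset.card_le_card hsub
      omega
    obtain ⟨a, ha, haD⟩ := Finset.not_subset.1 h7
    rw [Finset.mem_filter] at ha
    exact ⟨a, Finset.mem_sdiff.2 ⟨ha.1, haD⟩, ha.2⟩)
  rw [Finset.card_sdiff_of_subset hDS] at h5
  omega

end J6H76.TB
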