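import Pool.Agent.J6H76.TB.Up

/-! The upper bound for one row. -/

set_option autoImplicit false

namespace J6H76.TB

open Matrix

theorem exists_ext (F : Type) [Field F] [Fintype F] (m : ℕ) (hm : 1 ≤ m) :
    ∃ (K : Type) (_ : Field K) (_ : Algebra F K) (_ : Fintype K), Module.finrank F K = m := by
  obtain ⟨p, hp⟩ := CharP.exists F
  have : Fact p.Prime := ⟨CharP.char_is_prime F p⟩
  have : NeZero m := ⟨by omega⟩
  exact ⟨FiniteField.Extension F p m, inferInstance, inferInstance, Fintype.ofFinite _,
    FiniteField.finrank_extension F p m⟩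

theorem one_upper (F : Type) [Field F] [Fintype F] (k m : ℕ) (hm : 1 ≤ m) :
    ∃ M : Finset (Matrix (Fin k) (Fin m) F), Cov 1 M ∧
      M.card ≤ (k + m - 1) / m * (Fintype.card F ^ m - 1) + 1 := by
  classical
  obtain ⟨K, _, _, _, hK⟩ := exists_ext F m hm
  have : Module.Finite F K := Module.finite_of_finrank_pos (by omega)
  let b : Module.Basis (Fin m) F K := Module.finBasisOfFinrankEq F K hK
  set J : ℕ := (k + m - 1) / m with hJ
  let φ : Fin J → Fin k → K := fun j i =>
    if i.1 / m = j.1 then b ⟨i.1 % m, Nat.mod_lt _ hm⟩ else 0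
  let f : Option (Fin J × {x : K // x ≠ 0}) → Matrix (Fin k) (Fin m) F := fun o =>
    match o with
    | none => 0
    | some (j, x) => Matrix.of fun i l => b.repr (φ j i * x.1) l
  refine ⟨Finset.univ.image f, ?_, ?_⟩
  · intro B hB C
    by_cases hC : C = 0
    · refine ⟨f none, Finset.mem_image.2 ⟨none, Finset.mem_univ _, rfl⟩, ?_⟩
      show B * 0 = C
      rw [Matrix.mul_zero, hC]
    have hB0 : B ≠ 0 := by
      rintro rfl
      rw [Matrix.rank_zero] at hB
      omega
    obtain ⟨i0, hi0⟩ : ∃ i0, B 0 i0 ≠ 0 := by
      by_contra hcon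
      push Not at hcon
      apply hB0
      ext i j
      rw [Subsingleton.elim i 0, hcon j]
      rfl
    have hj : i0.1 / m < J := by
      have h1 := i0.2
      have h2 : i0.1 / m ≤ (k - 1) / m := Nat.div_le_div_right (by omega)
      have h3 : J = (k - 1) / m + 1 := by
        rw [hJ, show k + m - 1 = (k - 1) + m by omega, Nat.add_div_right _ (by omega)]
      omega
    let j : Fin J := ⟨i0.1 / m, hj⟩
    set β : K := ∑ i, B 0 i • φ j i with hβ
    have hβ0 : β ≠ 0 := by
      intro h0
      have h1 : b.repr β ⟨i0.1 % m, Nat.mod_lt _ hm⟩ = B 0 i0 := by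
        rw [hβ, map_sum, Finsupp.finsetSum_apply, Finset.sum_eq_single i0]
        · rw [map_smul, Finsupp.smul_apply]
          simp only [φ, j]
          rw [if_pos trivial, Module.Basis.repr_self, Finsupp.single_eq_same, smul_eq_mul, mul_one]
        · intro i _ hi
          rw [map_smul, Finsupp.smul_apply]
          simp only [φ, j]
          split_ifs with h
          · rw [Module.Basis.repr_self, Finsupp.single_eq_of_ne, smul_zero]
            intro h5
            apply hi
            have h6 : i0.1 % m = i.1 % m := by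
              have := congrArg Fin.val h5
              exact this
            apply Fin.ext
            have h7 := Nat.div_add_mod i.1 m
            have h8 := Nat.div_add_mod i0.1 m
            rw [h, ← h6] at h7
            omega
          · rw [map_zero, Finsupp.zero_apply, smul_zero]
        · intro h
          exact absurd (Finset.mem_univ _) h
      rw [h0, map_zero, Finsupp.zero_apply] at h1
      exact hi0 h1.symm
    set γ : K := b.equivFun.symm (C 0) with hγ
    have hγ0 : γ ≠ 0 := by
      intro h0
      apply hC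
      rw [hγ, LinearEquiv.map_eq_zero_iff] at h0
      ext i l
      rw [Subsingleton.elim i 0, h0]
      rfl
    let o : Option (Fin J × {x : K // x ≠ 0}) :=
      some (j, ⟨β⁻¹ * γ, mul_ne_zero (inv_ne_zero hβ0) hγ0⟩)
    refine ⟨f o, Finset.mem_image_of_mem f (Finset.mem_univ o), ?_⟩
    ext i l
    rw [Subsingleton.elim i 0, Matrix.mul_apply]
    have h2 : ∑ i, B 0 i * b.repr (φ j i * (β⁻¹ * γ)) l = b.repr (β * (β⁻¹ * γ)) l := by
      rw [hβ, Finset.sum_mul, map_sum, Finsupp.finsetSum_apply]
      refine Finset.sum_congr rfl fun i _ => ?_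
      rw [smul_mul_assoc, map_smul, Finsupp.smul_apply, smul_eq_mul]
    show ∑ i, B 0 i * b.repr (φ j i * (β⁻¹ * γ)) l = C 0 l
    rw [h2, mul_inv_cancel_left₀ hβ0]
    have h3 := congrFun (b.equivFun.apply_symm_apply (C 0)) l
    rw [← h3]
    rfl
  · refine Finset.card_image_le.trans ?_
    have h1 : Fintype.card {x : K // x ≠ 0} = Fintype.card F ^ m - 1 := by
      rw [Fintype.card_subtype_compl, Fintype.card_subtype_eq, Module.card_eq_pow_finrank (K := F) (V := K), hK]
    rw [Finset.card_univ, Fintype.card_option, Fintype.card_prod, Fintype.card_fin, h1]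

end J6H76.TB
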