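import Pool.Agent.J6H76.TB.One

/-! Subadditivity for one row. -/

set_option autoImplicit false

namespace J6H76.TB

open Matrix

theorem rank_one {F : Type} [Field F] {k : ℕ} (B : Matrix (Fin 1) (Fin k) F) (hB : B ≠ 0) :
    B.rank = 1 := by
  have h1 : B.rank ≤ 1 := by
    have h := B.rank_le_card_height
    rwa [Fintype.card_fin] at h
  have h2 : B.rank ≠ 0 := by
    intro h0
    apply hB
    have h3 : LinearMap.range B.mulVecLin = ⊥ := by
      rw [← Submodule.finrank_eq_zero (R := F)]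
      exact h0
    have h4 : B.mulVecLin = 0 := LinearMap.range_eq_bot.1 h3
    ext i j
    have h5 := congrFun (LinearMap.congr_fun h4 (Pi.single j 1)) i
    rw [Matrix.mulVecLin_apply, Matrix.mulVec_single_one] at h5
    exact h5
  omega

theorem translate {F : Type} [Field F] {k m : ℕ} (M : Finset (Matrix (Fin k) (Fin m) F))
    (hM : Cov 1 M) (hk : 1 ≤ k) :
    ∃ M' : Finset (Matrix (Fin k) (Fin m) F), Cov 1 M' ∧ 0 ∈ M' ∧ M'.card = M.card := by
  classical
  obtain ⟨A0, hA0, -⟩ := hM (Matrix.of fun _ _ => 1) (rank_one _ (by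
    intro h
    have := congrFun (congrFun h 0) ⟨0, hk⟩
    exact one_ne_zero this)) 0
  refine ⟨M.image (fun A => A - A0), ?_, ?_, ?_⟩
  · intro B hB C
    obtain ⟨A, hA, hBA⟩ := hM B hB (C + B * A0)
    refine ⟨A - A0, Finset.mem_image_of_mem _ hA, ?_⟩
    rw [Matrix.mul_sub, hBA, add_sub_cancel_right]
  · exact Finset.mem_image.2 ⟨A0, hA0, sub_self A0⟩
  · exact Finset.card_image_of_injective _ (sub_left_injective)

theorem mul_append {F : Type} [Field F] {k₁ k₂ m : ℕ} (B : Matrix (Fin 1) (Fin (k₁ + k₂)) F)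
    (A₁ : Matrix (Fin k₁) (Fin m) F) (A₂ : Matrix (Fin k₂) (Fin m) F) :
    B * (Matrix.of (Fin.append A₁ A₂) : Matrix (Fin (k₁ + k₂)) (Fin m) F) =
      (Matrix.of fun i j => B i (Fin.castAdd k₂ j)) * A₁ +
        (Matrix.of fun i j => B i (Fin.natAdd k₁ j)) * A₂ := by
  ext i l
  rw [Matrix.mul_apply, Fin.sum_univ_add, Matrix.add_apply, Matrix.mul_apply, Matrix.mul_apply]
  congr 1
  · refine Finset.sum_congr rfl fun j _ => ?_
    have h : Fin.append A₁ A₂ (Fin.castAdd k₂ j) = A₁ j :=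
      Fin.append_left (α := Fin m → F) A₁ A₂ j
    exact congrArg (fun z : Fin m → F => B i (Fin.castAdd k₂ j) * z l) h
  · refine Finset.sum_congr rfl fun j _ => ?_
    have h : Fin.append A₁ A₂ (Fin.natAdd k₁ j) = A₂ j :=
      Fin.append_right (α := Fin m → F) A₁ A₂ j
    exact congrArg (fun z : Fin m → F => B i (Fin.natAdd k₁ j) * z l) h

theorem cov_add {F : Type} [Field F] {k₁ k₂ m : ℕ} (h1 : 1 ≤ k₁) (h2 : 1 ≤ k₂)
    (M₁ : Finset (Matrix (Fin k₁) (Fin m) F)) (hM₁ : Cov 1 M₁)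
    (M₂ : Finset (Matrix (Fin k₂) (Fin m) F)) (hM₂ : Cov 1 M₂) :
    ∃ M : Finset (Matrix (Fin (k₁ + k₂)) (Fin m) F), Cov 1 M ∧ M.card + 1 ≤ M₁.card + M₂.card := by
  classical
  obtain ⟨N₁, hN₁, h01, hc1⟩ := translate M₁ hM₁ h1
  obtain ⟨N₂, hN₂, h02, hc2⟩ := translate M₂ hM₂ h2
  let f₁ : Matrix (Fin k₁) (Fin m) F → Matrix (Fin (k₁ + k₂)) (Fin m) F := fun A =>
    Matrix.of (Fin.append A (0 : Matrix (Fin k₂) (Fin m) F))
  let f₂ : Matrix (Fin k₂) (Fin m) F → Matrix (Fin (k₁ + k₂)) (Fin m) F := fun A =>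
    Matrix.of (Fin.append (0 : Matrix (Fin k₁) (Fin m) F) A)
  refine ⟨N₁.image f₁ ∪ N₂.image f₂, ?_, ?_⟩
  · intro B hB C
    by_cases hz : (Matrix.of fun i j => B i (Fin.castAdd k₂ j) : Matrix (Fin 1) (Fin k₁) F) = 0
    · have hz2 : (Matrix.of fun i j => B i (Fin.natAdd k₁ j) : Matrix (Fin 1) (Fin k₂) F) ≠ 0 := by
        intro h
        have hB0 : B = 0 := by
          ext i j
          refine Fin.addCases (fun j => ?_) (fun j => ?_) j
          · exact congrFun (congrFun hz i) j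
          · exact congrFun (congrFun h i) j
        rw [hB0, Matrix.rank_zero] at hB
        omega
      obtain ⟨A, hA, hBA⟩ := hN₂ _ (rank_one _ hz2) C
      refine ⟨f₂ A, Finset.mem_union_right _ (Finset.mem_image_of_mem _ hA), ?_⟩
      show B * (Matrix.of (Fin.append (0 : Matrix (Fin k₁) (Fin m) F) A)) = C
      rw [mul_append, Matrix.mul_zero, zero_add, hBA]
    · obtain ⟨A, hA, hBA⟩ := hN₁ _ (rank_one _ hz) C
      refine ⟨f₁ A, Finset.mem_union_left _ (Finset.mem_image_of_mem _ hA), ?_⟩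
      show B * (Matrix.of (Fin.append A (0 : Matrix (Fin k₂) (Fin m) F))) = C
      rw [mul_append, Matrix.mul_zero, add_zero, hBA]
  · have h3 : f₁ 0 = f₂ 0 := rfl
    have h4 : f₁ 0 ∈ N₁.image f₁ ∩ N₂.image f₂ := by
      rw [Finset.mem_inter]
      exact ⟨Finset.mem_image_of_mem _ h01, by rw [h3]; exact Finset.mem_image_of_mem _ h02⟩
    have h5 : 1 ≤ (N₁.image f₁ ∩ N₂.image f₂).card := Finset.card_pos.2 ⟨_, h4⟩
    have h6 := Finset.card_union_add_card_inter (N₁.image f₁) (N₂.image f₂)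
    have h7 : (N₁.image f₁).card ≤ N₁.card := Finset.card_image_le
    have h8 : (N₂.image f₂).card ≤ N₂.card := Finset.card_image_le
    omega

end J6H76.TB
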