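import Pool.Agent.J6H76.TB.Lim

/-! Ten matrices for q = 2, m = 2, k = 7, found by a SAT solver. -/

set_option autoImplicit false

namespace J6H76.TB

/-- The ten matrices. -/
def ten : Fin 10 → Fin 7 → Fin 2 → ZMod 2 := 
![![![0, 0], ![0, 0], ![0, 0], ![0, 0], ![0, 0], ![0, 0], ![0, 0]],
  ![![0, 0], ![0, 0], ![0, 0], ![1, 0], ![0, 0], ![0, 1], ![1, 1]],
  ![![0, 0], ![0, 0], ![0, 0], ![1, 0], ![0, 1], ![1, 0], ![0, 1]],
  ![![0, 0], ![0, 0], ![0, 0], ![1, 1], ![0, 1], ![0, 1], ![0, 1]],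
  ![![0, 0], ![0, 1], ![0, 0], ![1, 1], ![1, 1], ![1, 1], ![1, 0]],
  ![![0, 0], ![0, 1], ![1, 1], ![1, 1], ![0, 1], ![0, 1], ![0, 1]],
  ![![0, 0], ![1, 0], ![0, 1], ![1, 1], ![0, 1], ![0, 1], ![1, 1]],
  ![![0, 1], ![1, 0], ![0, 0], ![0, 0], ![1, 0], ![0, 1], ![0, 0]],
  ![![1, 0], ![0, 0], ![1, 0], ![0, 1], ![1, 0], ![1, 0], ![0, 0]],
  ![![1, 1], ![1, 1], ![0, 1], ![0, 0], ![0, 1], ![1, 1], ![1, 1]]]

theorem ten_spec : ∀ b : Fin 7 → ZMod 2, b ≠ 0 → ∀ c : Fin 2 → ZMod 2, ∃ i : Fin 10,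
    ∀ l : Fin 2, b 0 * ten i 0 l + b 1 * ten i 1 l + b 2 * ten i 2 l + b 3 * ten i 3 l +
      b 4 * ten i 4 l + b 5 * ten i 5 l + b 6 * ten i 6 l = c l := by
  decide +kernel

theorem ten_cov : T0 (ZMod 2) 7 2 1 ≤ 10 := by
  classical
  refine (T0_le (Finset.univ.image fun i : Fin 10 => (Matrix.of (ten i) : Matrix (Fin 7) (Fin 2) (ZMod 2)))
    ?_).trans (Finset.card_image_le.trans (by rw [Finset.card_univ, Fintype.card_fin]))
  intro B hB C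
  have hB0 : B 0 ≠ 0 := by
    intro h0
    have h1 : B = 0 := by
      ext i j
      rw [Subsingleton.elim i 0, h0]
      rfl
    rw [h1, Matrix.rank_zero] at hB
    omega
  obtain ⟨i, hi⟩ := ten_spec (B 0) hB0 (C 0)
  refine ⟨Matrix.of (ten i), Finset.mem_image.2 ⟨i, Finset.mem_univ _, rfl⟩, ?_⟩
  ext i' l
  rw [Subsingleton.elim i' 0, Matrix.mul_apply, Fin.sum_univ_seven]
  exact hi l

end J6H76.TB
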