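import Pool.Agent.J6H76.TB.Gen

/-! The general upper bound. -/

set_option autoImplicit false

namespace J6H76.TB

open Matrix

theorem surj {F : Type} [Field F] {k m r : ℕ} (B : Matrix (Fin r) (Fin k) F) (hB : B.rank = r)
    (C : Matrix (Fin r) (Fin m) F) : ∃ A : Matrix (Fin k) (Fin m) F, B * A = C := by
  have h1 : LinearMap.range B.mulVecLin = ⊤ := by
    apply Submodule.eq_top_of_finrank_eq
    rw [Module.finrank_fin_fun]
    exact hB
  have h2 : Function.Surjective B.mulVecLin := LinearMap.range_eq_top.1 h1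
  choose x hx using fun j : Fin m => h2 (fun i => C i j)
  refine ⟨Matrix.of fun i j => x j i, ?_⟩
  ext i j
  have h3 := congrFun (hx j) i
  rw [Matrix.mulVecLin_apply] at h3
  rw [Matrix.mul_apply, ← h3]
  rfl

/-- Left multiplication. -/
def lm {F : Type} [Field F] {k m r : ℕ} (B : Matrix (Fin r) (Fin k) F) :
    Matrix (Fin k) (Fin m) F →+ Matrix (Fin r) (Fin m) F where
  toFun A := B * A
  map_zero' := Matrix.mul_zero B
  map_add' A A' := Matrix.mul_add B A A'

theorem card_mat {F : Type} [Fintype F] (a b : ℕ) :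
    Fintype.card (Matrix (Fin a) (Fin b) F) = Fintype.card F ^ (a * b) := by
  classical
  have h1 : Fintype.card (Matrix (Fin a) (Fin b) F) = Fintype.card (Fin a → Fin b → F) :=
    Fintype.card_congr (Equiv.refl _)
  rw [h1, Fintype.card_fun, Fintype.card_fun, Fintype.card_fin, Fintype.card_fin, ← pow_mul,
    mul_comm]

/-- The number of matrices which fail one condition. -/
theorem fail {F : Type} [Field F] [Fintype F] [DecidableEq F] {k m r : ℕ}
    (B : Matrix (Fin r) (Fin k) F) (hB : B.rank = r) (C : Matrix (Fin r) (Fin m) F) :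
    ((Finset.univ.filter (fun A : Matrix (Fin k) (Fin m) F => B * A ≠ C)).card : ℝ) =
      (Fintype.card (Matrix (Fin k) (Fin m) F) : ℝ) * (1 - 1 / (Fintype.card F : ℝ) ^ (r * m)) := by
  classical
  have h1 := fib (lm (m := m) B) (surj B hB) C
  have h2 := Finset.card_filter_add_card_filter_not (s := (Finset.univ : Finset (Matrix (Fin k) (Fin m) F)))
    (fun A => B * A = C)
  rw [Finset.card_univ] at h2
  have h3 : (Finset.univ.filter (fun g : Matrix (Fin k) (Fin m) F => lm B g = C)).card =
      (Finset.univ.filter (fun A : Matrix (Fin k) (Fin m) F => B * A = C)).card := rfl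
  rw [h3, card_mat r m] at h1
  have hq : (0 : ℝ) < (Fintype.card F : ℝ) ^ (r * m) := by
    have : 0 < Fintype.card F := Fintype.card_pos
    positivity
  have h4 : ((Finset.univ.filter (fun A : Matrix (Fin k) (Fin m) F => B * A = C)).card : ℝ) =
      (Fintype.card (Matrix (Fin k) (Fin m) F) : ℝ) / (Fintype.card F : ℝ) ^ (r * m) := by
    rw [eq_div_iff hq.ne']
    exact_mod_cast h1
  have h5 : ((Finset.univ.filter (fun A : Matrix (Fin k) (Fin m) F => B * A = C)).card : ℝ) +
      ((Finset.univ.filter (fun A : Matrix (Fin k) (Fin m) F => ¬ B * A = C)).card : ℝ) =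
      (Fintype.card (Matrix (Fin k) (Fin m) F) : ℝ) := by
    exact_mod_cast h2
  have h6 : ((Finset.univ.filter (fun A : Matrix (Fin k) (Fin m) F => B * A ≠ C)).card : ℝ) =
      (Fintype.card (Matrix (Fin k) (Fin m) F) : ℝ) -
        (Fintype.card (Matrix (Fin k) (Fin m) F) : ℝ) / (Fintype.card F : ℝ) ^ (r * m) := by
    rw [← h4, ← h5]
    ring
  rw [h6]
  ring

/-- Union bound. -/
theorem exists_cov {F : Type} [Field F] [Fintype F] (k m r N : ℕ)
    (hN : (Fintype.card F : ℝ) ^ (r * k + r * m) * (1 - 1 / (Fintype.card F : ℝ) ^ (r * m)) ^ N < 1) :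
    ∃ M : Finset (Matrix (Fin k) (Fin m) F), Cov r M ∧ M.card ≤ N := by
  classical
  let bad : Matrix (Fin r) (Fin k) F × Matrix (Fin r) (Fin m) F →
      Finset (Fin N → Matrix (Fin k) (Fin m) F) := fun p =>
    if p.1.rank = r then Fintype.piFinset (fun _ => Finset.univ.filter (fun A => p.1 * A ≠ p.2)) else ∅
  set G : ℝ := (Fintype.card (Matrix (Fin k) (Fin m) F) : ℝ) with hG
  set H : ℝ := (Fintype.card F : ℝ) ^ (r * m) with hH
  have hq0 : 0 < Fintype.card F := Fintype.card_pos
  have hH1 : 1 ≤ H := by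
    rw [hH]
    apply one_le_pow₀
    exact_mod_cast hq0
  have hx0 : 0 ≤ 1 - 1 / H := by
    have : 1 / H ≤ 1 := by
      rw [div_le_one (by linarith)]
      exact hH1
    linarith
  have hG0 : 0 < G := by
    rw [hG, card_mat]
    push_cast
    positivity
  have hbad : ∀ p, ((bad p).card : ℝ) ≤ (G * (1 - 1 / H)) ^ N := by
    intro p
    simp only [bad]
    split_ifs with hp
    · rw [Fintype.card_piFinset, Finset.prod_const, Finset.card_univ, Fintype.card_fin]
      push_cast
      rw [fail p.1 hp p.2]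
    · rw [Finset.card_empty, Nat.cast_zero]
      positivity
  have htot : ((Finset.univ.biUnion bad).card : ℝ) < (Fintype.card (Fin N → Matrix (Fin k) (Fin m) F) : ℝ) := by
    calc ((Finset.univ.biUnion bad).card : ℝ) ≤ ∑ p, ((bad p).card : ℝ) := by
          exact_mod_cast Finset.card_biUnion_le
      _ ≤ ∑ _p : Matrix (Fin r) (Fin k) F × Matrix (Fin r) (Fin m) F, (G * (1 - 1 / H)) ^ N :=
          Finset.sum_le_sum fun p _ => hbad p
      _ = ((Fintype.card F : ℝ) ^ (r * k + r * m) * (1 - 1 / H) ^ N) * G ^ N := by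
          rw [Finset.sum_const, Finset.card_univ, Fintype.card_prod, card_mat, card_mat, nsmul_eq_mul,
            mul_pow]
          push_cast
          rw [← pow_add]
          ring
      _ < 1 * G ^ N := by
          apply mul_lt_mul_of_pos_right hN
          positivity
      _ = _ := by
          rw [one_mul, Fintype.card_fun, Fintype.card_fin, hG]
          push_cast
          rfl
  have hlt : (Finset.univ.biUnion bad).card < (Finset.univ : Finset (Fin N → Matrix (Fin k) (Fin m) F)).card := by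
    rw [Finset.card_univ]
    exact_mod_cast htot
  obtain ⟨f, -, hf⟩ := Finset.exists_mem_notMem_of_card_lt_card hlt
  refine ⟨Finset.univ.image f, ?_, ?_⟩
  · intro B hB C
    have h1 : f ∉ bad (B, C) := fun h => hf (Finset.mem_biUnion.2 ⟨(B, C), Finset.mem_univ _, h⟩)
    simp only [bad] at h1
    rw [if_pos hB, Fintype.mem_piFinset] at h1
    push Not at h1
    obtain ⟨i, hi⟩ := h1
    rw [Finset.mem_filter] at hi
    push Not at hi
    exact ⟨f i, Finset.mem_image.2 ⟨i, Finset.mem_univ _, rfl⟩, hi (Finset.mem_univ _)⟩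
  · refine Finset.card_image_le.trans ?_
    rw [Finset.card_univ, Fintype.card_fin]

theorem upper {F : Type} [Field F] [Fintype F] (k m r : ℕ) :
    ∃ M : Finset (Matrix (Fin k) (Fin m) F), Cov r M ∧
      (M.card : ℝ) ≤ (Fintype.card F : ℝ) ^ (r * m) * (r * (k + m)) * Real.log (Fintype.card F) + 1 := by
  set q : ℝ := (Fintype.card F : ℝ) with hq
  have hq1 : 1 < q := by
    rw [hq]
    exact_mod_cast Fintype.one_lt_card
  have hlog : 0 < Real.log q := Real.log_pos hq1
  set E : ℝ := q ^ (r * m) * (r * (k + m)) * Real.log q with hE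
  have hE0 : 0 ≤ E := by positivity
  obtain ⟨M, hM, hc⟩ := exists_cov (F := F) k m r (⌊E⌋₊ + 1) (by
    rw [← hq]
    have hH1 : 1 ≤ q ^ (r * m) := one_le_pow₀ hq1.le
    have hH0 : 0 < q ^ (r * m) := by linarith
    have hx0 : 0 ≤ 1 - 1 / q ^ (r * m) := by
      have : 1 / q ^ (r * m) ≤ 1 := by
        rw [div_le_one (by linarith)]
        exact hH1
      linarith
    have h1 : (1 - 1 / q ^ (r * m)) ^ (⌊E⌋₊ + 1) ≤
        Real.exp (-(1 / q ^ (r * m))) ^ (⌊E⌋₊ + 1) := by
      apply pow_le_pow_left₀ hx0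
      have := Real.add_one_le_exp (-(1 / q ^ (r * m)))
      linarith
    rw [← Real.exp_nat_mul] at h1
    have h2 : q ^ (r * k + r * m) = Real.exp ((r * (k + m) : ℝ) * Real.log q) := by
      have h7 : (r * (k + m) : ℝ) = ((r * k + r * m : ℕ) : ℝ) := by
        push_cast
        ring
      rw [h7, Real.exp_nat_mul, Real.exp_log (by linarith)]
    rw [h2]
    refine lt_of_le_of_lt (mul_le_mul_of_nonneg_left h1 (Real.exp_pos _).le) ?_
    rw [← Real.exp_add, Real.exp_lt_one_iff]
    have h3 : E < (⌊E⌋₊ + 1 : ℝ) := Nat.lt_floor_add_one E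
    have h4 : (r * (k + m) : ℝ) * Real.log q = E / q ^ (r * m) := by
      rw [hE]
      field_simp
    rw [h4]
    have h5 : E / q ^ (r * m) < (⌊E⌋₊ + 1 : ℝ) / q ^ (r * m) := div_lt_div_of_pos_right h3 hH0
    push_cast
    have h6 : ((⌊E⌋₊ : ℝ) + 1) * -(1 / q ^ (r * m)) = - (((⌊E⌋₊ : ℝ) + 1) / q ^ (r * m)) := by ring
    rw [h6]
    linarith)
  refine ⟨M, hM, ?_⟩
  have h1 : (M.card : ℝ) ≤ (⌊E⌋₊ + 1 : ℕ) := by exact_mod_cast hc
  refine h1.trans ?_
  push_cast
  have := Nat.floor_le hE0
  linarith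

end J6H76.TB
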